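import Pool.Agent.W102.GI.Defs

set_option autoImplicit false

/-! Task GI-GPOS: the gamma coefficients are nonnegative. -/

namespace Pool.Agent.W563.GI

open Pool.Agent.W102.GI

theorem grec (n k : ℕ) : ((n : ℚ) + 2) * gam (n + 2) k = (2 * (k : ℚ) + 1) * gam (n + 1) k
      + 4 * ((n : ℚ) + 3 - 2 * k) * (if k = 0 then 0 else gam (n + 1) (k - 1))
      + (2 * (k : ℚ) ^ 2 + 2 * k + n + 1) * gam n k
      + 4 * ((2 * (k : ℚ) - 1) * ((n : ℚ) + 2 - 2 * k) - k + 1) *
        (if k = 0 then 0 else gam n (k - 1))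
      + 8 * ((n : ℚ) + 4 - 2 * k) * ((n : ℚ) + 3 - 2 * k) *
        (if k < 2 then 0 else gam n (k - 2)) := by
  have h : gam (n + 2) k = ((2 * (k : ℚ) + 1) * gam (n + 1) k
      + 4 * ((n : ℚ) + 3 - 2 * k) * (if k = 0 then 0 else gam (n + 1) (k - 1))
      + (2 * (k : ℚ) ^ 2 + 2 * k + n + 1) * gam n k
      + 4 * ((2 * (k : ℚ) - 1) * ((n : ℚ) + 2 - 2 * k) - k + 1) *
        (if k = 0 then 0 else gam n (k - 1))
      + 8 * ((n : ℚ) + 4 - 2 * k) * ((n : ℚ) + 3 - 2 * k) *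
        (if k < 2 then 0 else gam n (k - 2))) / ((n : ℚ) + 2) := by
    rw [gam]
  have hn : ((n : ℚ) + 2) ≠ 0 := by positivity
  rw [h, mul_div_cancel₀ _ hn]

theorem pos_step (n k : ℕ) (hk : 2 * k ≤ n + 1) (h1 : ∀ j, 0 ≤ gam (n + 1) j)
    (h0 : ∀ j, 0 ≤ gam n j) : 0 ≤ gam (n + 2) k := by
  have hn : (0 : ℚ) < (n : ℚ) + 2 := by positivity
  have hk' : 2 * (k : ℚ) ≤ (n : ℚ) + 1 := by exact_mod_cast hk
  rw [← mul_nonneg_iff_of_pos_left hn, grec]
  have t1 : 0 ≤ (2 * (k : ℚ) + 1) * gam (n + 1) k := mul_nonneg (by positivity) (h1 k)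
  have t2 : 0 ≤ 4 * ((n : ℚ) + 3 - 2 * k) * (if k = 0 then 0 else gam (n + 1) (k - 1)) := by
    refine mul_nonneg (by linarith) ?_
    split_ifs
    · exact le_rfl
    · exact h1 _
  have t3 : 0 ≤ (2 * (k : ℚ) ^ 2 + 2 * k + n + 1) * gam n k := mul_nonneg (by positivity) (h0 k)
  have t4 : 0 ≤ 4 * ((2 * (k : ℚ) - 1) * ((n : ℚ) + 2 - 2 * k) - k + 1) *
      (if k = 0 then 0 else gam n (k - 1)) := by
    split_ifs with h
    · rw [mul_zero]
    · refine mul_nonneg ?_ (h0 _)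
      have hk1 : (1 : ℚ) ≤ k := by exact_mod_cast Nat.one_le_iff_ne_zero.2 h
      have : (2 * (k : ℚ) - 1) * 1 ≤ (2 * (k : ℚ) - 1) * ((n : ℚ) + 2 - 2 * k) :=
        mul_le_mul_of_nonneg_left (by linarith) (by linarith)
      linarith
  have t5 : 0 ≤ 8 * ((n : ℚ) + 4 - 2 * k) * ((n : ℚ) + 3 - 2 * k) *
      (if k < 2 then 0 else gam n (k - 2)) := by
    refine mul_nonneg (mul_nonneg (by linarith) (by linarith)) ?_
    split_ifs
    · exact le_rfl
    · exact h0 _
  linarith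

theorem mid (hz : GZ) (s : ℕ) (h : ∀ n, n < 2 * s + 6 → ∀ k, 0 ≤ gam n k) :
    0 ≤ gam (2 * s + 6) (s + 3) := by
  -- `p = s + 1`
  have e1 := grec (2 * s + 4) (s + 3)
  have e2 := grec (2 * s + 2) (s + 2)
  have e3 := grec (2 * s + 2) (s + 1)
  rw [if_neg (by omega), if_neg (by omega), if_neg (by omega),
    show s + 3 - 1 = s + 2 by omega, show s + 3 - 2 = s + 1 by omega,
    hz (2 * s + 4 + 1) (s + 3) (by omega), hz (2 * s + 4) (s + 3) (by omega)] at e1
  rw [if_neg (by omega), if_neg (by omega), if_neg (by omega),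
    show s + 2 - 1 = s + 1 by omega, show s + 2 - 2 = s by omega,
    hz (2 * s + 2 + 1) (s + 2) (by omega), hz (2 * s + 2) (s + 2) (by omega)] at e2
  rw [if_neg (by omega), if_neg (by omega), show s + 1 - 1 = s by omega] at e3
  have p1 := h (2 * s + 4 + 1) (by omega) (s + 2)
  have p2 := h (2 * s + 2 + 1) (by omega) (s + 1)
  have p3 := h (2 * s + 2) (by omega) s
  have p4 := h (2 * s + 2) (by omega) (s + 1)
  have p5 := h (2 * s + 2 + 1) (by omega) s
  have p6 : 0 ≤ (if s + 1 < 2 then (0 : ℚ) else gam (2 * s + 2) (s + 1 - 2)) := by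
    split_ifs
    · exact le_rfl
    · exact h _ (by omega) _
  have q1 : gam (2 * s + 4 + 2) (s + 3) = gam (2 * s + 6) (s + 3) := rfl
  have q2 : gam (2 * s + 2 + 2) (s + 2) = gam (2 * s + 4) (s + 2) := rfl
  have q3 : gam (2 * s + 2 + 2) (s + 1) = gam (2 * s + 4) (s + 1) := rfl
  rw [q1] at e1
  rw [q2] at e2
  rw [q3] at e3
  generalize (if s + 1 < 2 then (0 : ℚ) else gam (2 * s + 2) (s + 1 - 2)) = E at e3 p6
  generalize gam (2 * s + 6) (s + 3) = G at e1 ⊢
  generalize gam (2 * s + 4 + 1) (s + 2) = K at e1 p1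
  generalize gam (2 * s + 4) (s + 2) = G1 at e1 e2
  generalize gam (2 * s + 4) (s + 1) = G0 at e1 e3
  generalize gam (2 * s + 2 + 1) (s + 1) = A at e2 e3 p2
  generalize gam (2 * s + 2 + 1) s = A' at e3 p5
  generalize gam (2 * s + 2) (s + 1) = C at e2 e3 p4
  generalize gam (2 * s + 2) s = B at e2 e3 p3
  push_cast at e1 e2 e3
  have hs : (0 : ℚ) ≤ s := Nat.cast_nonneg s
  -- `(s + 2) G1 ≤ 2 A + 8 B`
  have r2 : ((s : ℚ) + 2) * G1 ≤ 2 * A + 8 * B := by
    have : 0 ≤ ((s : ℚ) + 1) * C := by positivity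
    linarith
  -- `(2 s + 4) G0 ≥ (2 s + 3) A + 4 (3 s + 2) B`
  have r3 : (2 * (s : ℚ) + 3) * A + 4 * (3 * s + 2) * B ≤ (2 * (s : ℚ) + 4) * G0 := by
    have u1 : 0 ≤ 12 * A' := by positivity
    have u2 : 0 ≤ (2 * ((s : ℚ) + 1) ^ 2 + 2 * (s + 1) + (2 * s + 2) + 1) * C := by positivity
    have u3 : 0 ≤ 96 * E := by positivity
    nlinarith
  have r4 : 0 ≤ 4 * G0 - ((s : ℚ) + 2) * G1 := by
    have v1 : ((s : ℚ) + 2) * (2 * A + 8 * B) ≤ ((s : ℚ) + 2) * (4 * G0) := by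
      have w1 : 0 ≤ (s : ℚ) * A := by positivity
      have w2 : 0 ≤ (s : ℚ) * B := by positivity
      nlinarith
    have v2 := le_of_mul_le_mul_left v1 (by positivity)
    linarith
  have r5 : ((2 * (s : ℚ) + 4) + 2) * G = 4 * K + 4 * (4 * G0 - ((s : ℚ) + 2) * G1) := by
    linarith
  have hpos : (0 : ℚ) < (2 * (s : ℚ) + 4) + 2 := by positivity
  rw [← mul_nonneg_iff_of_pos_left hpos, r5]
  linarith

theorem GPOS (hz : GZ) : Pool.Agent.W102.GI.GPOS := by
  intro n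
  induction n using Nat.strong_induction_on with
  | _ n ih =>
    intro k
    match n, ih with
    | 0, _ => rw [gam]; split_ifs <;> norm_num
    | 1, _ => rw [gam]; split_ifs <;> norm_num
    | n + 2, ih =>
      rcases lt_trichotomy (2 * k) (n + 2) with h | h | h
      · exact pos_step n k (by omega) (ih (n + 1) (by omega)) (ih n (by omega))
      · rcases Nat.lt_or_ge k 3 with hk | hk
        · interval_cases k
          · omega
          · obtain rfl : n = 0 := by omega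
            norm_num [gam]
          · obtain rfl : n = 2 := by omega
            norm_num [gam]
        · obtain ⟨s, rfl⟩ := Nat.exists_eq_add_of_le' hk
          obtain rfl : n = 2 * s + 4 := by omega
          exact mid hz s ih
      · rw [hz (n + 2) k h]

end Pool.Agent.W563.GI
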